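import Pool.Agent.H67.FS.Targets

/-!
# Module STR1: the operators `T j`
-/

set_option autoImplicit false

namespace Pool.Agent.H70.FS

open Matrix IsLocalRing Pool.Agent.H67.FS

universe u

theorem str1 : T_STR1.{u} := by
  classical
  intro R _ _ ι n1 _ _ _ e F0 F0' hred he0 he hli hcard
  obtain ⟨eqv⟩ : Nonempty (n1 ≃ ι × Fin 3) :=
    ⟨Fintype.equivOfCardEq (by simp [hcard, mul_comm])⟩
  obtain ⟨N, hN⟩ : ∃ N : Matrix n1 n1 R, ∀ s t, N s t = F0' (eqv t).1 s (eqv t).2.succ :=
    ⟨Matrix.of fun s t => F0' (eqv t).1 s (eqv t).2.succ, fun s t => rfl⟩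
  have hentry : ∀ l s i, residue R (F0' l s i) = F0 l s i := by
    intro l s i
    have := congrFun (congrFun (hred l) s) i
    simpa using this
  have hNbar : IsUnit (N.map (residue R)) := by
    rw [← Matrix.linearIndependent_cols_iff_isUnit]
    have h1 := hli.comp eqv eqv.injective
    convert h1 using 1
    ext t s
    simp [Matrix.col, hN, hentry]
  have hNu : IsUnit N := by
    rw [Matrix.isUnit_iff_isUnit_det] at hNbar ⊢
    rw [← residue_ne_zero_iff_isUnit, RingHom.map_det]
    exact hNbar.ne_zero
  have hsurj := Matrix.mulVec_surjective_iff_isUnit.mpr hNu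
  have hinj := Matrix.mulVec_injective_iff_isUnit.mpr hNbar
  have hex : ∀ a, ∃ c : n1 → R, N *ᵥ c = fun s => - F0' a s 0 := fun a => hsurj _
  choose c hc using hex
  refine ⟨fun j => Matrix.of fun l a => c a (eqv.symm (l, j)), ?_, ?_⟩
  · intro j
    ext l a
    have key : (fun t => residue R (c a t)) =
        fun t => if (eqv t).1 = a then e a (eqv t).2.succ else 0 := by
      apply hinj
      ext s
      have h1 : ((N.map (residue R)) *ᵥ fun t => residue R (c a t)) s = - F0 a s 0 := by
        have h2 := congrArg (residue R) (congrFun (hc a) s)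
        rw [map_neg, hentry] at h2
        rw [← h2]
        simp [Matrix.mulVec, dotProduct, map_sum]
      rw [h1]
      have h3 : ((N.map (residue R)) *ᵥ fun t => if (eqv t).1 = a then e a (eqv t).2.succ else 0) s
          = ∑ j : Fin 3, F0 a s j.succ * e a j.succ := by
        simp only [Matrix.mulVec, dotProduct, Matrix.map_apply, hN, hentry]
        rw [← eqv.symm.sum_comp, Fintype.sum_prod_type]
        simp only [Equiv.apply_symm_apply]
        rw [Finset.sum_eq_single a]
        · simp
        · intro b _ hb
          simp [hb]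
        · simp
      rw [h3]
      have h4 := congrFun (he a) s
      simp only [Matrix.mulVec, dotProduct, Pi.zero_apply] at h4
      rw [Fin.sum_univ_succ, he0, mul_one] at h4
      linear_combination -h4
    have h5 := congrFun key (eqv.symm (l, j))
    simp only [Equiv.apply_symm_apply] at h5
    simp only [Matrix.map_apply, Matrix.of_apply, h5, Matrix.diagonal_apply]
    by_cases hla : l = a
    · simp [hla]
    · simp [hla]
  · intro a
    ext s
    have h1 := congrFun (hc a) s
    simp only [Matrix.mulVec, dotProduct, hN] at h1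
    rw [← eqv.symm.sum_comp, Fintype.sum_prod_type] at h1
    simp only [Equiv.apply_symm_apply] at h1
    simp only [Matrix.mulVec_single_one, Matrix.col_apply, Matrix.of_apply, Pi.add_apply, Finset.sum_apply,
      Pi.smul_apply, smul_eq_mul, Pi.zero_apply]
    rw [Finset.sum_comm]
    rw [Finset.sum_congr rfl fun l _ => Finset.sum_congr rfl fun j _ =>
      mul_comm (c a (eqv.symm (l, j))) (F0' l s j.succ)]
    rw [h1]
    ring

end Pool.Agent.H70.FS
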