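import Pool.Agent.H67.FS.Targets

/-!
# Module STR2: common eigenvectors
-/

set_option autoImplicit false

namespace Pool.Agent.H70.FS

open Matrix IsLocalRing Pool.Agent.H67.FS

universe u

section Val

variable {R : Type u} [CommRing R] [IsDomain R] [ValuationRing R]

theorem exists_dvd_all {α : Type*} [Fintype α] [Nonempty α] (f : α → R) :
    ∃ k, ∀ i, f k ∣ f i := by
  classical
  have h : ∀ s : Finset α, s.Nonempty → ∃ k, ∀ i ∈ s, f k ∣ f i := by
    intro s hs
    induction hs using Finset.Nonempty.cons_induction with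
    | singleton a => exact ⟨a, fun i hi => by rw [Finset.mem_singleton.mp hi]⟩
    | cons a s ha hs ih =>
      obtain ⟨k, hk⟩ := ih
      rcases ValuationRing.dvd_total (f a) (f k) with h | h
      · refine ⟨a, fun i hi => ?_⟩
        rcases Finset.mem_cons.mp hi with h1 | h1
        · rw [h1]
        · exact h.trans (hk i h1)
      · refine ⟨k, fun i hi => ?_⟩
        rcases Finset.mem_cons.mp hi with h1 | h1
        · rw [h1]; exact h
        · exact hk i h1
  obtain ⟨k, hk⟩ := h Finset.univ Finset.univ_nonempty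
  exact ⟨k, fun i => hk i (Finset.mem_univ i)⟩

theorem exists_primitive {α : Type*} [Fintype α] (f : α → R) (hf : f ≠ 0) :
    ∃ (k : α) (u : α → R), u k = 1 ∧ (∀ i, f i = f k * u i) ∧ f k ≠ 0 := by
  classical
  have : Nonempty α := by
    by_contra h
    rw [not_nonempty_iff] at h
    exact hf (Subsingleton.elim _ _)
  obtain ⟨k, hk⟩ := exists_dvd_all f
  choose u hu using hk
  have hk0 : f k ≠ 0 := by
    intro h
    apply hf
    ext i
    rw [hu i, h, zero_mul]
    rfl
  refine ⟨k, fun i => if i = k then 1 else u i, by simp, ?_, hk0⟩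
  intro i
  by_cases h : i = k
  · simp [h]
  · simp [h, hu i]

theorem li_lift {α s : Type*} [Fintype α] (v : α → s → R)
    (hv : LinearIndependent (ResidueField R) (fun q => fun t => residue R (v q t)))
    (g : α → R) (hg : ∑ q, g q • v q = 0) : g = 0 := by
  by_contra hne
  obtain ⟨k, u, huk, hu, hk0⟩ := exists_primitive g hne
  have h1 : ∀ t, ∑ q, u q * v q t = 0 := by
    intro t
    have h2 := congrFun hg t
    simp only [Finset.sum_apply, Pi.smul_apply, smul_eq_mul, Pi.zero_apply] at h2
    have h3 : g k * ∑ q, u q * v q t = 0 := by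
      rw [Finset.mul_sum, ← h2]
      apply Finset.sum_congr rfl
      intro q _
      rw [hu q]; ring
    exact (mul_eq_zero.mp h3).resolve_left hk0
  rw [Fintype.linearIndependent_iff] at hv
  have h4 := hv (fun q => residue R (u q)) (by
    ext t
    have := congrArg (residue R) (h1 t)
    rw [map_sum, map_zero] at this
    simp only [Finset.sum_apply, Pi.smul_apply, smul_eq_mul, Pi.zero_apply, ← map_mul]
    exact this) k
  rw [huk, map_one] at h4
  exact one_ne_zero h4

theorem root_lift (L : Type u) [Field L] [IsAlgClosed L] [Algebra R L] [IsFractionRing R L]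
    (μ : ResidueField R) : ∀ (n : ℕ) (p : Polynomial R), p.natDegree = n → p.Monic →
      p.eval₂ (residue R) μ = 0 → ∃ r : R, p.eval r = 0 ∧ residue R r = μ := by
  intro n
  induction n with
  | zero =>
    intro p hn hp he
    rw [hp.natDegree_eq_zero] at hn
    subst hn
    simp at he
  | succ n ih =>
    intro p hn hp he
    have hdeg : (p.map (algebraMap R L)).degree ≠ 0 := by
      rw [hp.degree_map, Polynomial.degree_eq_natDegree hp.ne_zero, hn]
      exact_mod_cast Nat.succ_ne_zero n
    obtain ⟨y, hy⟩ := IsAlgClosed.exists_root (p.map (algebraMap R L)) hdeg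
    rw [Polynomial.IsRoot.def, Polynomial.eval_map] at hy
    obtain ⟨r, hr⟩ := IsIntegrallyClosed.algebraMap_eq_of_integral (R := R) (K := L)
      (x := y) ⟨p, hp, hy⟩
    have hroot : p.eval r = 0 := by
      apply IsFractionRing.injective R L
      rw [map_zero, ← hy, ← hr, Polynomial.eval₂_at_apply]
    set q := p /ₘ (Polynomial.X - Polynomial.C r) with hq
    have hpq : (Polynomial.X - Polynomial.C r) * q = p :=
      Polynomial.mul_divByMonic_eq_iff_isRoot.mpr hroot
    have hqm : q.Monic := by
      have h1 := Polynomial.monic_X_sub_C r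
      apply h1.of_mul_monic_left
      rw [hpq]; exact hp
    by_cases hrμ : residue R r = μ
    · exact ⟨r, hroot, hrμ⟩
    · have hqn : q.natDegree = n := by
        have h1 := (Polynomial.monic_X_sub_C r).natDegree_mul hqm
        rw [hpq, hn, Polynomial.natDegree_X_sub_C] at h1
        omega
      have hqe : q.eval₂ (residue R) μ = 0 := by
        rw [← hpq, Polynomial.eval₂_mul] at he
        rcases mul_eq_zero.mp he with h | h
        · exfalso
          rw [Polynomial.eval₂_sub, Polynomial.eval₂_X, Polynomial.eval₂_C, sub_eq_zero] at h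
          exact hrμ h.symm
        · exact h
      obtain ⟨r', h1, h2⟩ := ih q hqn hqm hqe
      exact ⟨r', by rw [← hpq, Polynomial.eval_mul, h1, mul_zero], h2⟩

end Val

/-- the linear combination of matrices -/
def lc {R : Type u} [CommRing R] {ι m n : Type} [Fintype ι] (A : ι → Matrix m n R) (z : ι → R) :
    Matrix m n R := ∑ l, z l • A l

section LC

variable {R : Type u} [CommRing R] {ι m n p : Type} [Fintype ι] [Fintype n] [Fintype m]

omit [Fintype m] in
theorem lc_mulVec (A : ι → Matrix m n R) (z : ι → R) (v : n → R) :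
    lc A z *ᵥ v = ∑ l, z l • (A l *ᵥ v) := by
  rw [lc, Matrix.sum_mulVec]
  simp [Matrix.smul_mulVec]

omit [Fintype m] [Fintype n] in
theorem lc_sum {α : Type*} [Fintype α] (A : ι → Matrix m n R) (c : α → R) (z : α → ι → R) :
    lc A (∑ x, c x • z x) = ∑ x, c x • lc A (z x) := by
  simp only [lc, Finset.sum_apply, Pi.smul_apply, Finset.sum_smul, Finset.smul_sum, smul_eq_mul,
    mul_smul]
  rw [Finset.sum_comm]

omit [Fintype m] [Fintype n] in
theorem lc_smul (A : ι → Matrix m n R) (c : R) (z : ι → R) :
    lc A (c • z) = c • lc A z := by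
  simp only [lc, Pi.smul_apply, Finset.smul_sum, smul_eq_mul, mul_smul]

theorem lc_mul_self [DecidableEq ι] (A : ι → Matrix p m R) (B : ι → Matrix m n R)
    (h1 : ∀ i, A i * B i = 0) (h2 : ∀ i j, A i * B j + A j * B i = 0) (z : ι → R) :
    lc A z * lc B z = 0 := by
  simp only [lc, Matrix.sum_mul, Matrix.mul_sum]
  rw [← Finset.sum_product', Finset.univ_product_univ]
  refine Finset.sum_involution (fun x _ => x.swap) ?_ ?_ (fun _ _ => Finset.mem_univ _)
    (fun x _ => Prod.swap_swap x)
  · intro x _
    simp only [Prod.fst_swap, Prod.snd_swap, Matrix.smul_mul, Matrix.mul_smul, smul_smul]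
    rw [mul_comm (z x.1) (z x.2), ← smul_add, h2, smul_zero]
  · intro x _ hx heq
    apply hx
    have : x.1 = x.2 := by
      have := congrArg Prod.fst heq
      simpa using this.symm
    rw [this, Matrix.smul_mul, Matrix.mul_smul, h1, smul_zero, smul_zero]

theorem lc_rel [DecidableEq ι] (F0 : ι → Matrix m (Fin 4) R) (T : Fin 3 → Matrix ι ι R)
    (h : ∀ a, F0 a *ᵥ Pi.single 0 1 + ∑ j : Fin 3, ∑ l, T j l a • (F0 l *ᵥ Pi.single j.succ 1) = 0)
    (z : ι → R) :
    lc F0 z *ᵥ Pi.single 0 1 + ∑ j : Fin 3, lc F0 (T j *ᵥ z) *ᵥ Pi.single j.succ 1 = 0 := by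
  have h1 : ∑ a, z a • (F0 a *ᵥ Pi.single 0 1 +
      ∑ j : Fin 3, ∑ l, T j l a • (F0 l *ᵥ Pi.single j.succ 1)) = 0 :=
    Finset.sum_eq_zero fun a _ => by rw [h, smul_zero]
  simp only [smul_add, Finset.sum_add_distrib, Finset.smul_sum] at h1
  rw [lc_mulVec, ← h1]
  congr 1
  rw [Finset.sum_comm]
  apply Finset.sum_congr rfl
  intro j _
  rw [lc_mulVec, Finset.sum_comm]
  apply Finset.sum_congr rfl
  intro l _
  rw [Matrix.mulVec, dotProduct, Finset.sum_smul]
  apply Finset.sum_congr rfl
  intro a _
  rw [smul_smul, mul_comm]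

end LC

theorem str2 : T_STR2.{u} := by
  intro R L _ _ _ _ _ _ _ ι n1 n2 _ _ _ _ A1 F0 T μ hAF hAF2 hT hrel hμ hli
  have hTe : ∀ j l a, residue R (T j l a) = if l = a then μ a j else 0 := by
    intro j l a
    have := congrFun (congrFun (hT j) l) a
    rw [Matrix.map_apply, Matrix.diagonal_apply] at this
    rw [this]
    by_cases h : l = a
    · simp [h]
    · simp [h]
  -- eigenvalues of `T 0`
  have hev : ∀ a, ∃ r : R, (T 0).charpoly.eval r = 0 ∧ residue R r = μ a 0 := by
    intro a
    apply root_lift L (μ a 0) _ (T 0).charpoly rfl (Matrix.charpoly_monic _)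
    rw [← Polynomial.eval_map, ← Matrix.charpoly_map, hT 0, Matrix.charpoly_diagonal,
      Polynomial.eval_prod]
    apply Finset.prod_eq_zero (Finset.mem_univ a)
    simp
  choose r hr1 hr2 using hev
  -- eigenvectors
  have hvec : ∀ a, ∃ z : ι → R, T 0 *ᵥ z = r a • z ∧ ∀ l, residue R (z l) = if l = a then 1 else 0 := by
    intro a
    have hdet : (Matrix.scalar ι (r a) - T 0).det = 0 := by
      rw [← Matrix.eval_charpoly]; exact hr1 a
    obtain ⟨v, hv0, hv⟩ := Matrix.exists_mulVec_eq_zero_iff.mpr hdet
    obtain ⟨k, u, huk, hu, hk0⟩ := exists_primitive v hv0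
    have hvu : v = v k • u := by ext i; rw [hu i]; rfl
    have hTu : T 0 *ᵥ u = r a • u := by
      rw [Matrix.sub_mulVec, sub_eq_zero] at hv
      have h1 : v k • (T 0 *ᵥ u) = v k • (r a • u) := by
        rw [← Matrix.mulVec_smul, ← hvu, ← hv, Matrix.scalar_apply]
        ext i
        rw [Matrix.mulVec_diagonal, hu i]
        simp only [Pi.smul_apply, smul_eq_mul]
        ring
      exact smul_right_injective _ hk0 h1
    have hres : ∀ l, (μ l 0 - μ a 0) * residue R (u l) = 0 := by
      intro l
      have h1 := congrArg (residue R) (congrFun hTu l)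
      simp only [Matrix.mulVec, dotProduct, map_sum, map_mul, hTe, Pi.smul_apply, smul_eq_mul,
        ite_mul, zero_mul, hr2] at h1
      rw [Finset.sum_ite_eq Finset.univ l] at h1
      simp only [Finset.mem_univ, if_true] at h1
      rw [sub_mul, h1, sub_self]
    have hne : ∀ l, l ≠ a → residue R (u l) = 0 := by
      intro l hl
      refine (mul_eq_zero.mp (hres l)).resolve_left ?_
      rw [sub_eq_zero]
      exact fun h => hl (hμ h)
    have hka : k = a := by
      by_contra h
      have := hne k h
      rw [huk, map_one] at this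
      exact one_ne_zero this
    refine ⟨u, hTu, fun l => ?_⟩
    by_cases hl : l = a
    · rw [if_pos hl, hl, ← hka, huk, map_one]
    · rw [if_neg hl, hne l hl]
  choose z hz1 hz2 using hvec
  -- the `z a` form a basis
  have hZ : ∀ w : ι → R, ∃ c : ι → R, w = ∑ x, c x • z x := by
    intro w
    obtain ⟨Z, hZe⟩ : ∃ Z : Matrix ι ι R, ∀ l a, Z l a = z a l :=
      ⟨Matrix.of fun l a => z a l, fun _ _ => rfl⟩
    have hZb : Z.map (residue R) = 1 := by
      ext l a
      rw [Matrix.map_apply, hZe, hz2, Matrix.one_apply]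
    have hZu : IsUnit Z := by
      rw [Matrix.isUnit_iff_isUnit_det, ← residue_ne_zero_iff_isUnit, RingHom.map_det]
      have : (residue R).mapMatrix Z = 1 := hZb
      rw [this, Matrix.det_one]
      exact one_ne_zero
    obtain ⟨c, hc⟩ := Matrix.mulVec_surjective_iff_isUnit.mpr hZu w
    refine ⟨c, ?_⟩
    ext l
    rw [← hc]
    simp only [Matrix.mulVec, dotProduct, hZe, Finset.sum_apply, Pi.smul_apply, smul_eq_mul]
    exact Finset.sum_congr rfl fun x _ => mul_comm _ _
  choose τ hτ using fun (j : Fin 3) (a : ι) => hZ (T j *ᵥ z a)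
  have hoff : ∀ a, ∀ q : {c : ι // c ≠ a} × Fin 2, τ q.2.succ a q.1 = 0 := by
    intro a
    set v : {c : ι // c ≠ a} × Fin 2 → n2 → R := fun q =>
      lc A1 (z a) *ᵥ (lc F0 (z q.1) *ᵥ Pi.single q.2.succ.succ 1) with hv
    have hvb : ∀ q s, residue R (v q s) =
        residue R ((A1 a *ᵥ (F0 q.1 *ᵥ Pi.single q.2.succ.succ 1)) s) := by
      intro q s
      simp only [hv, lc_mulVec, Matrix.mulVec_sum, Matrix.mulVec_smul, Finset.sum_apply,
        Pi.smul_apply, smul_eq_mul, map_sum, map_mul, hz2]
      simp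
    have hsum : ∑ q, (τ q.2.succ a q.1) • v q = 0 := by
      have h1 := lc_rel F0 T hrel (z a)
      have h2 := congrArg (fun y => lc A1 (z a) *ᵥ y) h1
      have hkill : lc A1 (z a) * lc F0 (z a) = 0 := lc_mul_self A1 F0 hAF hAF2 (z a)
      have hkill' : ∀ y, lc A1 (z a) *ᵥ (lc F0 (z a) *ᵥ y) = 0 := by
        intro y; rw [Matrix.mulVec_mulVec, hkill, Matrix.zero_mulVec]
      simp only [Matrix.mulVec_add, Matrix.mulVec_zero, hkill', zero_add, Matrix.mulVec_sum] at h2
      rw [Fin.sum_univ_succ, hz1, lc_smul, Matrix.smul_mulVec, Matrix.mulVec_smul, hkill',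
        smul_zero, zero_add] at h2
      rw [Fintype.sum_prod_type, Finset.sum_comm, ← h2]
      apply Finset.sum_congr rfl
      intro j _
      rw [hτ j.succ a, lc_sum, Matrix.sum_mulVec, Matrix.mulVec_sum]
      rw [← Finset.sum_erase Finset.univ (a := a), Finset.sum_subtype (Finset.univ.erase a)
        (p := fun c => c ≠ a) (fun x => by simp)]
      · apply Finset.sum_congr rfl
        intro x _
        simp only [hv, Matrix.smul_mulVec, Matrix.mulVec_smul]
      · simp only [Matrix.smul_mulVec, Matrix.mulVec_smul, hkill', smul_zero]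
    have := li_lift v (by simpa only [hvb] using hli a) (fun q => τ q.2.succ a q.1) hsum
    intro q
    exact congrFun this q
  have heig : ∀ a j, ∃ ν : R, T j *ᵥ z a = ν • z a := by
    intro a j
    refine Fin.cases ⟨r a, hz1 a⟩ (fun j => ?_) j
    refine ⟨τ j.succ a a, (hτ j.succ a).trans (Finset.sum_eq_single a ?_ ?_)⟩
    · intro c _ hc
      rw [hoff a (⟨c, hc⟩, j), zero_smul]
    · intro h
      exact absurd (Finset.mem_univ a) h
  choose ν hν using heig
  refine ⟨z, ν, fun a j => hν a j, fun a j => ?_, fun a l => hz2 a l⟩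
  have h1 := congrArg (residue R) (congrFun (hν a j) a)
  simp only [Matrix.mulVec, dotProduct, map_sum, map_mul, hTe, Pi.smul_apply, smul_eq_mul,
    ite_mul, zero_mul, hz2] at h1
  simpa using h1.symm

end Pool.Agent.H70.FS
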