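import Pool.Agent.H70.FS.STR2

/-!
# Module STR3: the collinearities of the deformed configuration
-/

set_option autoImplicit false

namespace Pool.Agent.H70.FS

open Matrix IsLocalRing Pool.Agent.H67.FS

universe u

section Rank

variable {R : Type u} [CommRing R] [IsDomain R] [ValuationRing R] (L : Type u) [Field L]
  [Algebra R L] [IsFractionRing R L]

theorem finrank_span_residue_le {α s : Type} [Fintype α] [Fintype s] (v : α → s → R) :
    Module.finrank (ResidueField R)
        (Submodule.span (ResidueField R) (Set.range fun q => fun t => residue R (v q t))) ≤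
      Module.finrank L (Submodule.span L (Set.range fun q => fun t => algebraMap R L (v q t))) := by
  obtain ⟨f, hf1, hf2, hf3⟩ := Submodule.exists_fun_fin_finrank_span_eq (ResidueField R)
    (Set.range fun q => fun t => residue R (v q t))
  choose q hq using hf1
  have hli : LinearIndependent (ResidueField R) (fun i => fun t => residue R (v (q i) t)) := by
    have : (fun i => fun t => residue R (v (q i) t)) = f := funext fun i => hq i
    rw [this]; exact hf3
  have hR : LinearIndependent R (fun i => v (q i)) := by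
    rw [Fintype.linearIndependent_iff]
    intro g hg i
    exact congrFun (li_lift (fun i => v (q i)) hli g hg) i
  have hR2 : LinearIndependent R (fun i => fun t => algebraMap R L (v (q i) t)) := by
    rw [Fintype.linearIndependent_iff] at hR ⊢
    intro g hg i
    apply hR g _ i
    ext t
    apply IsFractionRing.injective R L
    have := congrFun hg t
    simp only [Finset.sum_apply, Pi.smul_apply, Pi.zero_apply] at this
    simp only [Finset.sum_apply, Pi.smul_apply, Pi.zero_apply, map_sum, map_zero, smul_eq_mul,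
      map_mul]
    simpa only [Algebra.smul_def] using this
  have hL : LinearIndependent L (fun i => fun t => algebraMap R L (v (q i) t)) :=
    (LinearIndependent.iff_fractionRing R L).mp hR2
  have h1 := finrank_span_eq_card hL
  rw [Fintype.card_fin] at h1
  refine le_trans (le_of_eq h1.symm) ?_
  apply Submodule.finrank_mono
  apply Submodule.span_mono
  rintro _ ⟨i, rfl⟩
  exact ⟨q i, rfl⟩

end Rank

theorem col_iff {F : Type u} [Field F] {ι : Type} (e : ι → Fin 4 → F) (a b c : ι) :
    Col e a b c ↔ Module.finrank F (E3 e a b c) < 3 := by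
  have hr : Set.range ![e a, e b, e c] = {e a, e b, e c} := by
    simp [Matrix.range_cons, Matrix.range_empty]
    ext x
    simp
    tauto
  have hle : Module.finrank F (E3 e a b c) ≤ 3 := by
    have := finrank_range_le_card (R := F) ![e a, e b, e c]
    rw [Fintype.card_fin, Set.finrank, hr] at this
    exact this
  unfold Col
  rw [linearIndependent_iff_card_eq_finrank_span, Fintype.card_fin, Set.finrank, hr]
  change ¬ 3 = Module.finrank F (E3 e a b c) ↔ _
  omega

theorem E3_le_three {F : Type u} [Field F] {ι : Type} (e : ι → Fin 4 → F) (a b c : ι) :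
    Module.finrank F (E3 e a b c) ≤ 3 := by
  have hr : Set.range ![e a, e b, e c] = {e a, e b, e c} := by
    simp [Matrix.range_cons, Matrix.range_empty]
    ext x
    simp
    tauto
  have := finrank_range_le_card (R := F) ![e a, e b, e c]
  rw [Fintype.card_fin, Set.finrank, hr] at this
  exact this

theorem lc_anti {R : Type u} [CommRing R] {ι m n p : Type} [Fintype ι] [Fintype m]
    (A : ι → Matrix p m R) (B : ι → Matrix m n R)
    (h2 : ∀ i j, A i * B j + A j * B i = 0) (x y : ι → R) :
    lc A x * lc B y + lc A y * lc B x = 0 := by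
  simp only [lc, Matrix.sum_mul, Matrix.mul_sum]
  have e2 : ∑ j, ∑ i, (y i • A i) * (x j • B j) = ∑ j, ∑ i, (y j • A j) * (x i • B i) :=
    Finset.sum_comm
  rw [e2, ← Finset.sum_add_distrib]
  apply Finset.sum_eq_zero
  intro j _
  rw [← Finset.sum_add_distrib]
  apply Finset.sum_eq_zero
  intro i _
  rw [Matrix.smul_mul, Matrix.mul_smul, Matrix.smul_mul, Matrix.mul_smul, smul_smul, smul_smul,
    mul_comm (y j) (x i), ← smul_add, h2, smul_zero]

theorem res_lc {R : Type u} [CommRing R] [IsLocalRing R] {ι m n : Type} [Fintype ι]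
    [DecidableEq ι] [Fintype n] (A : ι → Matrix m n R) (z : ι → R) (a : ι)
    (hz : ∀ l, residue R (z l) = if l = a then 1 else 0) (w w' : n → R)
    (hw : ∀ i, residue R (w i) = residue R (w' i)) (s : m) :
    residue R ((lc A z *ᵥ w) s) = residue R ((A a *ᵥ w') s) := by
  rw [lc_mulVec]
  simp only [Finset.sum_apply, Pi.smul_apply, smul_eq_mul, map_sum, map_mul, hz, ite_mul, one_mul,
    zero_mul]
  rw [Finset.sum_ite_eq' Finset.univ a]
  simp only [Finset.mem_univ, if_true]
  simp only [Matrix.mulVec, dotProduct, map_sum, map_mul, hw]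

theorem finrank_span_le_sum {F V : Type*} [Field F] [AddCommGroup V] [Module F V]
    [FiniteDimensional F V] {τ : Type*} [Fintype τ] (W : τ → Submodule F V) :
    Module.finrank F (⨆ t, W t : Submodule F V) ≤ ∑ t, Module.finrank F (W t) := by
  classical
  have h : ∀ s : Finset τ, Module.finrank F (s.sup W : Submodule F V) ≤
      ∑ t ∈ s, Module.finrank F (W t) := by
    intro s
    induction s using Finset.induction_on with
    | empty => simp
    | insert a s ha ih =>
      rw [Finset.sup_insert, Finset.sum_insert ha]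
      exact (Submodule.finrank_add_le_finrank_add_finrank _ _).trans (by omega)
  have := h Finset.univ
  rwa [Finset.sup_univ_eq_iSup] at this

theorem str3 : T_STR3.{u} := by
  intro R L _ _ _ _ _ _ ι n1 n2 n3 _ _ _ _ _ A2 A1 F0 T z ν e h1 h2 h3 h4 hrel hT hz he0 heν
    hinj hspan hcard e' he'0 he'
  -- the vectors over `R`
  obtain ⟨et, het0, hets⟩ : ∃ et : ι → Fin 4 → R, (∀ a, et a 0 = 1) ∧ ∀ a (j : Fin 3),
      et a j.succ = ν a j := ⟨fun a => Fin.cons 1 (ν a), fun a => rfl, fun a j => by simp⟩
  have het' : ∀ a, e' a = fun i => algebraMap R L (et a i) := by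
    intro a
    ext i
    refine Fin.cases ?_ (fun j => ?_) i
    · rw [he'0, het0, map_one]
    · rw [he', hets]
  have hetr : ∀ a, e a = fun i => residue R (et a i) := by
    intro a
    ext i
    refine Fin.cases ?_ (fun j => ?_) i
    · rw [he0, het0, map_one]
    · rw [← heν, hets]
  have hkill : ∀ c, lc F0 (z c) *ᵥ et c = 0 := by
    intro c
    have k1 := lc_rel F0 T hrel (z c)
    simp only [hT, lc_smul, Matrix.smul_mulVec] at k1
    rw [← k1]
    ext s
    simp only [Matrix.mulVec_single_one, Matrix.col_apply, Pi.add_apply, Finset.sum_apply,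
      Pi.smul_apply, smul_eq_mul, Matrix.mulVec, dotProduct]
    rw [Fin.sum_univ_succ, het0, mul_one]
    congr 1
    apply Finset.sum_congr rfl
    intro j _
    rw [hets, mul_comm]
  set M : Trs ι → Matrix n3 (Fin 4) R := fun t =>
    lc A2 (z t.1.1) * (lc A1 (z t.1.2.1) * lc F0 (z t.1.2.2)) with hM
  have hMc : ∀ t, M t *ᵥ et t.1.2.2 = 0 := by
    intro t
    simp only [hM, ← Matrix.mulVec_mulVec, hkill, Matrix.mulVec_zero]
  have hMb : ∀ t, M t *ᵥ et t.1.2.1 = 0 := by
    intro t
    have := lc_anti A1 F0 h2 (z t.1.2.1) (z t.1.2.2)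
    rw [add_eq_zero_iff_eq_neg] at this
    simp only [hM, this]
    rw [Matrix.mul_neg, Matrix.neg_mulVec, ← Matrix.mulVec_mulVec, ← Matrix.mulVec_mulVec, hkill]
    simp
  have hMa : ∀ t, M t *ᵥ et t.1.1 = 0 := by
    intro t
    have k1 := lc_anti A2 A1 h4 (z t.1.1) (z t.1.2.1)
    rw [add_eq_zero_iff_eq_neg] at k1
    have k2 := lc_anti A1 F0 h2 (z t.1.1) (z t.1.2.2)
    rw [add_eq_zero_iff_eq_neg] at k2
    simp only [hM]
    rw [← Matrix.mul_assoc, k1, Matrix.neg_mul, Matrix.mul_assoc, k2, Matrix.mul_neg, neg_neg,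
      ← Matrix.mulVec_mulVec, ← Matrix.mulVec_mulVec, hkill]
    simp
  -- the linear maps over `L`
  set φ : Trs ι → (Fin 4 → L) →ₗ[L] (n3 → L) := fun t =>
    ((M t).map (algebraMap R L)).mulVecLin with hφ
  have hφe : ∀ t (v : Fin 4 → R), φ t (fun i => algebraMap R L (v i)) =
      fun s => algebraMap R L ((M t *ᵥ v) s) := by
    intro t v
    ext s
    simp [hφ, Matrix.mulVec, dotProduct]
  have hker : ∀ t, E3 e' t.1.1 t.1.2.1 t.1.2.2 ≤ LinearMap.ker (φ t) := by
    intro t
    rw [E3, Submodule.span_le]
    rintro x hx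
    simp only [Set.mem_insert_iff, Set.mem_singleton_iff] at hx
    rw [SetLike.mem_coe, LinearMap.mem_ker]
    rcases hx with rfl | rfl | rfl
    · rw [het', hφe, hMa]; ext s; simp
    · rw [het', hφe, hMb]; ext s; simp
    · rw [het', hφe, hMc]; ext s; simp
  have hrange : ∀ t, Module.finrank L (LinearMap.range (φ t)) ≤
      4 - Module.finrank L (E3 e' t.1.1 t.1.2.1 t.1.2.2) := by
    intro t
    have k1 := LinearMap.finrank_range_add_finrank_ker (φ t)
    have k2 := Submodule.finrank_mono (hker t)
    rw [Module.finrank_fin_fun] at k1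
    omega
  -- lower bound
  have hlow : Fintype.card n3 ≤ ∑ t : Trs ι, Module.finrank L (LinearMap.range (φ t)) := by
    have k1 := finrank_span_residue_le L (fun (q : Trs ι × Fin 4) => M q.1 *ᵥ Pi.single q.2 1)
    have k2 : (Set.range fun q : Trs ι × Fin 4 => fun t =>
        residue R ((M q.1 *ᵥ Pi.single q.2 1) t)) = Set.range fun q : Trs ι × Fin 4 => fun s =>
          residue R ((A2 q.1.1.1 *ᵥ (A1 q.1.1.2.1 *ᵥ (F0 q.1.1.2.2 *ᵥ Pi.single q.2 1))) s) := by
      congr 1
      ext q s
      simp only [hM, ← Matrix.mulVec_mulVec]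
      apply res_lc A2 _ _ (hz _)
      intro i
      apply res_lc A1 _ _ (hz _)
      intro i
      apply res_lc F0 _ _ (hz _)
      intro i
      rfl
    rw [k2, hspan, finrank_top, Module.finrank_fintype_fun_eq_card] at k1
    refine k1.trans ?_
    refine le_trans ?_ (finrank_span_le_sum fun t => LinearMap.range (φ t))
    apply Submodule.finrank_mono
    rw [Submodule.span_le]
    rintro _ ⟨q, rfl⟩
    apply Submodule.mem_iSup_of_mem q.1
    refine ⟨fun i => algebraMap R L ((Pi.single q.2 1 : Fin 4 → R) i), ?_⟩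
    rw [hφe]
  -- ranks of the triples
  have hrk : ∀ t : Trs ι, Module.finrank (ResidueField R) (E3 e t.1.1 t.1.2.1 t.1.2.2) ≤
      Module.finrank L (E3 e' t.1.1 t.1.2.1 t.1.2.2) := by
    intro t
    have k1 := finrank_span_residue_le L ![et t.1.1, et t.1.2.1, et t.1.2.2]
    have k2 : (Set.range fun q => fun s => residue R (![et t.1.1, et t.1.2.1, et t.1.2.2] q s)) =
        {e t.1.1, e t.1.2.1, e t.1.2.2} := by
      rw [hetr, hetr, hetr]
      ext x
      simp only [Set.mem_range, Set.mem_insert_iff, Set.mem_singleton_iff]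
      constructor
      · rintro ⟨i, rfl⟩
        fin_cases i <;> simp
      · rintro (rfl | rfl | rfl)
        · exact ⟨0, rfl⟩
        · exact ⟨1, rfl⟩
        · exact ⟨2, rfl⟩
    have k3 : (Set.range fun q => fun s => algebraMap R L
        (![et t.1.1, et t.1.2.1, et t.1.2.2] q s)) = {e' t.1.1, e' t.1.2.1, e' t.1.2.2} := by
      rw [het', het', het']
      ext x
      simp only [Set.mem_range, Set.mem_insert_iff, Set.mem_singleton_iff]
      constructor
      · rintro ⟨i, rfl⟩
        fin_cases i <;> simp
      · rintro (rfl | rfl | rfl)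
        · exact ⟨0, rfl⟩
        · exact ⟨1, rfl⟩
        · exact ⟨2, rfl⟩
    rw [k2, k3] at k1
    exact k1
  have hall : ∀ t : Trs ι, Module.finrank L (E3 e' t.1.1 t.1.2.1 t.1.2.2) =
      Module.finrank (ResidueField R) (E3 e t.1.1 t.1.2.1 t.1.2.2) := by
    have k1 : ∑ t : Trs ι, (4 - Module.finrank L (E3 e' t.1.1 t.1.2.1 t.1.2.2)) =
        ∑ t : Trs ι, (4 - Module.finrank (ResidueField R) (E3 e t.1.1 t.1.2.1 t.1.2.2)) := by
      apply le_antisymm
      · exact Finset.sum_le_sum fun t _ => Nat.sub_le_sub_left (hrk t) 4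
      · rw [← hcard]
        exact hlow.trans (Finset.sum_le_sum fun t _ => hrange t)
    intro t
    have k2 := (Finset.sum_eq_sum_iff_of_le
      (fun t _ => Nat.sub_le_sub_left (hrk t) 4)).mp k1 t (Finset.mem_univ t)
    have k3 := E3_le_three e' t.1.1 t.1.2.1 t.1.2.2
    have k4 := E3_le_three e t.1.1 t.1.2.1 t.1.2.2
    omega
  have hsort : ∀ a b c : ι, a < b → b < c → Module.finrank L (E3 e' a b c) =
      Module.finrank (ResidueField R) (E3 e a b c) := fun a b c hab hbc =>
    hall ⟨(a, b, c), hab, hbc⟩
  have hswap1 : ∀ {F : Type u} [Field F] (e : ι → Fin 4 → F) (a b c : ι),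
      E3 e a b c = E3 e b a c := by
    intro F _ e a b c
    unfold E3
    rw [Set.insert_comm]
  have hswap2 : ∀ {F : Type u} [Field F] (e : ι → Fin 4 → F) (a b c : ι),
      E3 e a b c = E3 e a c b := by
    intro F _ e a b c
    unfold E3
    rw [Set.pair_comm]
  intro a b c hab hac hbc
  rw [col_iff, col_iff]
  have hfin : Module.finrank L (E3 e' a b c) = Module.finrank (ResidueField R) (E3 e a b c) := by
    rcases lt_or_gt_of_ne hab with h | h <;> rcases lt_or_gt_of_ne hac with h' | h' <;>
      rcases lt_or_gt_of_ne hbc with h'' | h''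
    · exact hsort a b c h h''
    · rw [hswap2 e', hswap2 e]; exact hsort a c b h' h''
    · exact absurd (h.trans h'') (not_lt.mpr h'.le)
    · rw [hswap2 e', hswap2 e, hswap1 e', hswap1 e]; exact hsort c a b h' h
    · rw [hswap1 e', hswap1 e]; exact hsort b a c h h'
    · exact absurd (h''.trans h) (not_lt.mpr h'.le)
    · rw [hswap1 e', hswap1 e, hswap2 e', hswap2 e]; exact hsort b c a h'' h'
    · rw [hswap2 e', hswap2 e, hswap1 e', hswap1 e, hswap2 e', hswap2 e]; exact hsort c b a h'' h
  rw [hfin]

end Pool.Agent.H70.FS
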